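import Pool.Agent.H25.VT.Spec
import Pool.Agent.H25.VT.Lip

set_option autoImplicit false

open MeasureTheory
open scoped ENNReal NNReal

namespace Pool.Agent.Helper16.VT

open Pool.Agent.H25.VT

/-- Part CONJ (from LIP). -/
theorem conj_of (hL : S_LIP) : S_CONJ := by
  intro n P a b hP ha hab
  have ha0 : 0 < a - 1 := by linarith
  set h : ℝ → ℝ := fun t => max a t / (max a t - 1) with hh
  have hlip : LipschitzWith (Real.toNNReal (1 / (a - 1) ^ 2)) h := by
    refine LipschitzWith.of_dist_le_mul ?_
    intro s t
    rw [Real.coe_toNNReal _ (by positivity), Real.dist_eq, Real.dist_eq]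
    have hs : a ≤ max a s := le_max_left _ _
    have ht : a ≤ max a t := le_max_left _ _
    have h1 : |max a s - max a t| ≤ |s - t| := by
      have := abs_max_sub_max_le_abs a s t
      have h2 := abs_max_sub_max_le_abs s t a
      rw [max_comm s a, max_comm t a] at h2
      exact h2
    have hs1 : 0 < max a s - 1 := by linarith
    have ht1 : 0 < max a t - 1 := by linarith
    have e : h s - h t = (max a t - max a s) / ((max a s - 1) * (max a t - 1)) := by
      rw [hh]
      field_simp
      ring
    rw [e, abs_div, abs_of_pos (mul_pos hs1 ht1), abs_sub_comm (max a t) (max a s)]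
    rw [div_le_iff₀ (mul_pos hs1 ht1)]
    have h3 : (a - 1) ^ 2 ≤ (max a s - 1) * (max a t - 1) := by nlinarith
    calc |max a s - max a t| ≤ |s - t| := h1
      _ = 1 / (a - 1) ^ 2 * |s - t| * (a - 1) ^ 2 := by field_simp
      _ ≤ 1 / (a - 1) ^ 2 * |s - t| * ((max a s - 1) * (max a t - 1)) := by
          apply mul_le_mul_of_nonneg_left h3
          positivity
  have := hL n P h _ hlip hP
  have e : (fun x => h (P x)) = fun x => P x / (P x - 1) := by
    funext x
    rw [hh]
    simp only
    rw [max_eq_right (hab x).1]
  rwa [e] at this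

/-- Part CONJ. -/
theorem mainCONJ : S_CONJ := conj_of Pool.Agent.H25.VT.LIP.main

end Pool.Agent.Helper16.VT
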