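import Pool.Agent.H25.VT.Spec

set_option autoImplicit false

open MeasureTheory Filter
open scoped ENNReal NNReal Topology

namespace Pool.Agent.Helper16.VT

open Pool.Agent.H25.VT

/-- Part PINF. -/
theorem mainPINF : S_PINF := by
  intro n P a b c Pinf hn hab hc
  set u : E n := EuclideanSpace.single (⟨0, hn⟩ : Fin n) (1 : ℝ) with hu
  have hun : ‖u‖ = 1 := by
    rw [hu, EuclideanSpace.norm_single]
    simp
  have hlim : Tendsto (fun t : ℝ => c / Real.log (Real.exp 1 + ‖t • u‖)) atTop (𝓝 0) := by
    have h1 : Tendsto (fun t : ℝ => Real.exp 1 + ‖t • u‖) atTop atTop := by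
      have : ∀ᶠ t : ℝ in atTop, t ≤ Real.exp 1 + ‖t • u‖ := by
        refine Filter.Eventually.of_forall fun t => ?_
        rw [norm_smul, hun, mul_one]
        have := le_abs_self t
        have := Real.exp_pos 1
        rw [Real.norm_eq_abs]
        linarith
      exact tendsto_atTop_mono' _ this tendsto_id
    exact (Real.tendsto_log_atTop.comp h1).const_div_atTop c
  have hP : Tendsto (fun t : ℝ => P (t • u)) atTop (𝓝 Pinf) := by
    rw [tendsto_iff_dist_tendsto_zero]
    refine squeeze_zero (fun _ => dist_nonneg) (fun t => ?_) hlim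
    rw [Real.dist_eq]
    exact hc _
  exact ⟨ge_of_tendsto' hP fun t => (hab _).1, le_of_tendsto' hP fun t => (hab _).2⟩

end Pool.Agent.Helper16.VT
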